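import Pool.Agent.Helper98.QR.StmtsA
import Pool.Agent.Helper58.CP.Final

/-! Row A01 of qr_mods: Euler inequality for connected maps. -/

namespace QR

open CP

theorem st_A01 : ST_A01 := by
  classical
  intro D _ m hne hconn
  have : Fintype D := Fintype.ofFinite D
  have : Finite m.Vert := by unfold RMap.Vert; infer_instance
  have : Finite m.Face := by unfold RMap.Face; infer_instance
  have : Fintype m.Vert := Fintype.ofFinite _
  have : Fintype m.Face := Fintype.ofFinite _
  rw [Nat.card_eq_fintype_card, Nat.card_eq_fintype_card, Nat.card_eq_fintype_card]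
  refine CP.gen D m.Vert m.Face m.rot m.opp m.tail m.fc hne m.opp_opp m.opp_ne ?_ ?_
    Quotient.mk_surjective Quotient.mk_surjective ?_
  · intro d
    exact Quotient.sound (s := Equiv.Perm.SameCycle.setoid m.rot)
      ((Equiv.Perm.sameCycle_apply_left).2 (Equiv.Perm.SameCycle.refl m.rot d))
  · intro d
    exact Quotient.sound (s := Equiv.Perm.SameCycle.setoid m.face)
      ((Equiv.Perm.sameCycle_apply_left (f := m.face)).2 (Equiv.Perm.SameCycle.refl m.face d))
  · intro S hS h1 h2
    obtain ⟨d, hd⟩ := hS
    ext d'
    simp only [Set.mem_univ, iff_true]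
    have h := hconn d d'
    induction h with
    | refl => exact hd
    | tail _ hbc ih =>
      rcases hbc with h | h
      · rw [h]; exact h1 _ ih
      · rw [h]; exact h2 _ ih

end QR
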