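import Pool.Agent.Helper98.QR.StmtsA

/-! Row A02 of qr_mods: Euler inequality for two permutations. -/

namespace QR

namespace A02

open Equiv

variable {S : Type} (c ψ : Perm S)

/-- rotation on `S × Bool` -/
def rr : Perm (S × Bool) where
  toFun x := if x.2 then (ψ x.1, true) else (c⁻¹ x.1, false)
  invFun x := if x.2 then (ψ⁻¹ x.1, true) else (c x.1, false)
  left_inv := by
    rintro ⟨x, b⟩
    cases b <;> simp
  right_inv := by
    rintro ⟨x, b⟩
    cases b <;> simp

/-- reversal -/
def oo : Perm (S × Bool) where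
  toFun x := (x.1, !x.2)
  invFun x := (x.1, !x.2)
  left_inv := by
    rintro ⟨x, b⟩
    cases b <;> simp
  right_inv := by
    rintro ⟨x, b⟩
    cases b <;> simp

/-- the map -/
def mm : RMap (S × Bool) where
  rot := rr c ψ
  opp := oo
  opp_opp := by
    rintro ⟨x, b⟩
    simp [oo]
  opp_ne := by
    rintro ⟨x, b⟩
    cases b <;> simp [oo]

theorem rr_t (x : S) : rr c ψ (x, true) = (ψ x, true) := rfl

theorem rr_f (x : S) : rr c ψ (x, false) = (c⁻¹ x, false) := rfl

theorem pow_t (k : ℕ) (x : S) : (rr c ψ ^ k) (x, true) = ((ψ ^ k) x, true) := by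
  induction k with
  | zero => rfl
  | succ k ih => rw [pow_succ', Perm.mul_apply, ih, rr_t, pow_succ', Perm.mul_apply]

theorem pow_f (k : ℕ) (x : S) : (rr c ψ ^ k) (x, false) = ((c⁻¹ ^ k) x, false) := by
  induction k with
  | zero => rfl
  | succ k ih => rw [pow_succ', Perm.mul_apply, ih, rr_f, pow_succ', Perm.mul_apply]

theorem face_t (x : S) : (mm c ψ).face (x, true) = (c⁻¹ x, false) := rfl

theorem face_f (x : S) : (mm c ψ).face (x, false) = (ψ x, true) := rfl

theorem face_pow (k : ℕ) (x : S) :
    ((mm c ψ).face ^ (2 * k)) (x, false) = (((c⁻¹ * ψ) ^ k) x, false) := by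
  induction k with
  | zero => rfl
  | succ k ih =>
    have h2 : 2 * (k + 1) = 2 * k + 1 + 1 := by ring
    rw [h2, pow_succ', Perm.mul_apply, pow_succ', Perm.mul_apply, ih, face_f, face_t, pow_succ' _ k,
      Perm.mul_apply, Perm.mul_apply]

theorem face_pow1 (k : ℕ) (x : S) :
    ((mm c ψ).face ^ (2 * k + 1)) (x, false) = (ψ (((c⁻¹ * ψ) ^ k) x), true) := by
  rw [pow_succ', Perm.mul_apply, face_pow, face_f]

theorem same_t [Finite S] (x y : S) :
    (mm c ψ).rot.SameCycle (x, true) (y, true) ↔ ψ.SameCycle x y := by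
  constructor
  · intro h
    obtain ⟨i, hi, h⟩ := h.exists_pow_eq'
    have h1 : (rr c ψ ^ i) (x, true) = (y, true) := h
    rw [pow_t] at h1
    exact ⟨i, (Prod.mk.inj h1).1⟩
  · intro h
    obtain ⟨i, hi, h⟩ := h.exists_pow_eq'
    refine ⟨i, ?_⟩
    change (rr c ψ ^ (i : ℤ)) (x, true) = _
    rw [zpow_natCast, pow_t, h]

theorem same_f [Finite S] (x y : S) :
    (mm c ψ).rot.SameCycle (x, false) (y, false) ↔ c.SameCycle x y := by
  rw [← Perm.sameCycle_inv (f := c)]
  constructor
  · intro h
    obtain ⟨i, hi, h⟩ := h.exists_pow_eq'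
    have h1 : (rr c ψ ^ i) (x, false) = (y, false) := h
    rw [pow_f] at h1
    exact ⟨i, (Prod.mk.inj h1).1⟩
  · intro h
    obtain ⟨i, hi, h⟩ := h.exists_pow_eq'
    refine ⟨i, ?_⟩
    change (rr c ψ ^ (i : ℤ)) (x, false) = _
    rw [zpow_natCast, pow_f, h]

theorem same_face [Finite S] (x y : S) :
    (mm c ψ).face.SameCycle (x, false) (y, false) ↔ (c⁻¹ * ψ).SameCycle x y := by
  constructor
  · intro h
    obtain ⟨i, hi, h⟩ := h.exists_pow_eq'
    rcases Nat.even_or_odd' i with ⟨k, hk | hk⟩
    · subst hk
      rw [face_pow] at h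
      exact ⟨k, (Prod.mk.inj h).1⟩
    · subst hk
      rw [face_pow1] at h
      simp at h
  · intro h
    obtain ⟨i, hi, h⟩ := h.exists_pow_eq'
    refine ⟨((2 * i : ℕ) : ℤ), ?_⟩
    rw [zpow_natCast, face_pow, h]

theorem not_tf [Finite S] (x y : S) : ¬ (mm c ψ).rot.SameCycle (x, true) (y, false) := by
  intro h
  obtain ⟨i, hi, h⟩ := h.exists_pow_eq'
  have h1 : (rr c ψ ^ i) (x, true) = (y, false) := h
  rw [pow_t] at h1
  simp at h1

theorem reach_pow {D : Type} (m : RMap D) (k : ℕ) (a : D) :
    Relation.ReflTransGen (fun a b => b = m.rot a ∨ b = m.opp a) a ((m.rot ^ k) a) := by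
  induction k with
  | zero => exact Relation.ReflTransGen.refl
  | succ k ih =>
    refine ih.tail (Or.inl ?_)
    rw [pow_succ', Perm.mul_apply]

theorem reach_same {D : Type} [Finite D] (m : RMap D) {a b : D} (h : m.rot.SameCycle a b) :
    Relation.ReflTransGen (fun a b => b = m.rot a ∨ b = m.opp a) a b := by
  obtain ⟨i, hi, h⟩ := h.exists_pow_eq'
  rw [← h]
  exact reach_pow m i a

theorem conn [Finite S]
    (h : ∀ x y : S, Relation.ReflTransGen (fun a b => b = c a ∨ b = ψ a) x y) :
    (mm c ψ).Conn := by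
  have h1 : ∀ x y : S, Relation.ReflTransGen
      (fun a b => b = (mm c ψ).rot a ∨ b = (mm c ψ).opp a) (x, true) (y, true) := by
    intro x y
    have h2 := h x y
    induction h2 with
    | refl => exact Relation.ReflTransGen.refl
    | @tail u w _ hbc ih =>
      refine ih.trans ?_
      rcases hbc with hbc | hbc
      · subst hbc
        refine Relation.ReflTransGen.trans (b := (u, false))
          (Relation.ReflTransGen.single (Or.inr rfl)) ?_
        refine Relation.ReflTransGen.trans (b := (c u, false)) ?_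
          (Relation.ReflTransGen.single (Or.inr rfl))
        refine reach_same (mm c ψ) ?_
        rw [same_f]
        exact Perm.sameCycle_apply_right.2 (Perm.SameCycle.refl _ _)
      · subst hbc
        exact Relation.ReflTransGen.single (Or.inl rfl)
  rintro ⟨x, b⟩ ⟨y, b'⟩
  cases b <;> cases b'
  · exact Relation.ReflTransGen.trans (b := (x, true)) (Relation.ReflTransGen.single (Or.inr rfl))
      ((h1 x y).trans (Relation.ReflTransGen.single (Or.inr rfl)))
  · exact Relation.ReflTransGen.trans (b := (x, true)) (Relation.ReflTransGen.single (Or.inr rfl))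
      (h1 x y)
  · exact (h1 x y).trans (Relation.ReflTransGen.single (Or.inr rfl))
  · exact h1 x y

end A02

open A02 in
theorem st_A02 (h : ST_A01) : ST_A02 := by
  classical
  intro S _ c ψ hne htr
  obtain ⟨s0⟩ := hne
  have h1 := h (S × Bool) (mm c ψ) ⟨(s0, true)⟩ (conn c ψ htr)
  have : Finite (mm c ψ).Vert := by unfold RMap.Vert; infer_instance
  have : Finite (mm c ψ).Face := by unfold RMap.Face; infer_instance
  have hV : Nat.card (Cyc ψ ⊕ Cyc c) ≤ Nat.card (mm c ψ).Vert := by
    let F : Cyc ψ ⊕ Cyc c → (mm c ψ).Vert := fun z => match z with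
      | Sum.inl q => Quotient.map' (s₁ := Equiv.Perm.SameCycle.setoid ψ)
          (s₂ := Equiv.Perm.SameCycle.setoid (mm c ψ).rot) (fun x => (x, true))
          (fun a b hab => (same_t c ψ a b).2 hab) q
      | Sum.inr q => Quotient.map' (s₁ := Equiv.Perm.SameCycle.setoid c)
          (s₂ := Equiv.Perm.SameCycle.setoid (mm c ψ).rot) (fun x => (x, false))
          (fun a b hab => (same_f c ψ a b).2 hab) q
    refine Nat.card_le_card_of_injective F ?_
    rintro (a | a) (b | b) hab
    · induction a using Quotient.inductionOn'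
      induction b using Quotient.inductionOn'
      have h2 := Quotient.exact (s := Equiv.Perm.SameCycle.setoid (mm c ψ).rot) hab
      exact congrArg Sum.inl (Quotient.sound (s := Equiv.Perm.SameCycle.setoid ψ)
        ((same_t c ψ _ _).1 h2))
    · induction a using Quotient.inductionOn'
      induction b using Quotient.inductionOn'
      have h2 := Quotient.exact (s := Equiv.Perm.SameCycle.setoid (mm c ψ).rot) hab
      exact absurd h2 (not_tf c ψ _ _)
    · induction a using Quotient.inductionOn'
      induction b using Quotient.inductionOn'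
      have h2 := Quotient.exact (s := Equiv.Perm.SameCycle.setoid (mm c ψ).rot) hab
      exact absurd h2.symm (not_tf c ψ _ _)
    · induction a using Quotient.inductionOn'
      induction b using Quotient.inductionOn'
      have h2 := Quotient.exact (s := Equiv.Perm.SameCycle.setoid (mm c ψ).rot) hab
      exact congrArg Sum.inr (Quotient.sound (s := Equiv.Perm.SameCycle.setoid c)
        ((same_f c ψ _ _).1 h2))
  have hF : Nat.card (Cyc (c⁻¹ * ψ)) ≤ Nat.card (mm c ψ).Face := by
    let F : Cyc (c⁻¹ * ψ) → (mm c ψ).Face :=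
      Quotient.map' (s₁ := Equiv.Perm.SameCycle.setoid (c⁻¹ * ψ))
          (s₂ := Equiv.Perm.SameCycle.setoid (mm c ψ).face) (fun x => (x, false))
          (fun a b hab => (same_face c ψ a b).2 hab)
    refine Nat.card_le_card_of_injective F ?_
    intro a b hab
    induction a using Quotient.inductionOn'
    induction b using Quotient.inductionOn'
    have h2 := Quotient.exact (s := Equiv.Perm.SameCycle.setoid (mm c ψ).face) hab
    exact Quotient.sound (s := Equiv.Perm.SameCycle.setoid (c⁻¹ * ψ))
      ((same_face c ψ _ _).1 h2)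
  have hc1 : Finite (Cyc ψ) := by unfold Cyc; infer_instance
  have hc2 : Finite (Cyc c) := by unfold Cyc; infer_instance
  rw [Nat.card_sum] at hV
  rw [Nat.card_prod] at h1
  have h3 : Nat.card Bool = 2 := by simp
  rw [h3] at h1
  omega

end QR
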