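import Pool.Agent.Helper98.QR.StmtsA

/-! Row A09 of qr_mods: the core is embedded. -/

namespace QR

open Equiv

theorem st_A09 (h4 : ST_A04) (h6 : ST_A06) : ST_A09 := by
  intro N P D D' _ _ m o m' o' j hP hq hc
  obtain ⟨ρ, hρ, hj, hrot, hopp, hjo, hconn⟩ := hc
  obtain ⟨-, h6b⟩ := h6 D m o N P ρ hP hq hρ
  obtain ⟨-, -, hout, htail⟩ := h6b D' m' j o' hj hrot hopp hconn
    (by rw [hjo]; exact Perm.SameCycle.refl _ _)
  obtain ⟨-, -, h43⟩ := h4 D m.rot ρ (outer m o) hρ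
  have hpow : ∀ (k : ℕ) (d : D'), ((ρ⁻¹ * m.rot) ^ k) (j d) = j ((m'.rot ^ k) d) := by
    intro k d
    induction k with
    | zero => rfl
    | succ k ih =>
      rw [pow_succ', Perm.mul_apply, ih]
      rw [pow_succ' m'.rot k]
      exact (hrot _).symm
  have hs1 : ∀ (d : D') (y : D), (ρ⁻¹ * m.rot).SameCycle (j d) y →
      ∃ e, j e = y ∧ m'.rot.SameCycle d e := by
    intro d y h
    obtain ⟨i, -, h⟩ := h.exists_pow_eq'
    rw [hpow] at h
    exact ⟨_, h, ⟨i, rfl⟩⟩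
  have hs2 : ∀ d e : D', m'.rot.SameCycle d e → (ρ⁻¹ * m.rot).SameCycle (j d) (j e) := by
    intro d e h
    obtain ⟨i, -, h⟩ := h.exists_pow_eq'
    refine ⟨i, ?_⟩
    rw [zpow_natCast, hpow, h]
  have ht : ∀ d e : D, m.tail d = m.tail e ↔ m.rot.SameCycle d e := fun d e =>
    ⟨fun h => Quotient.exact (s := Perm.SameCycle.setoid m.rot) h,
      fun h => Quotient.sound (s := Perm.SameCycle.setoid m.rot) h⟩
  have ht' : ∀ d e : D', m'.tail d = m'.tail e ↔ m'.rot.SameCycle d e := fun d e =>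
    ⟨fun h => Quotient.exact (s := Perm.SameCycle.setoid m'.rot) h,
      fun h => Quotient.sound (s := Perm.SameCycle.setoid m'.rot) h⟩
  have hB : ∀ (d : D') (b : D), b ∈ outer m o → (ρ⁻¹ * m.rot).SameCycle (j d) b →
      OnB m' o' (m'.tail d) := by
    intro d b hb h
    obtain ⟨e, he, h'⟩ := hs1 d b h
    refine ⟨e, (hout e).2 (by rw [he]; exact hb), (ht' _ _).2 h'.symm⟩
  refine ⟨j, hj, hopp, ?_, fun d hd => (hout d).1 hd, ?_, ?_⟩
  · intro d e
    refine ⟨fun h => ?_, htail d e⟩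
    rw [ht, h43]
    exact Or.inl (hs2 _ _ ((ht' _ _).1 h))
  · rintro d ⟨e, he, h⟩
    rw [ht] at h
    rcases (h43 (j d) e).1 h.symm with h1 | ⟨b, hb, b', hb', h1, -, -⟩
    · exact hB d e he h1
    · exact hB d b hb h1
  · intro d x hd h
    rw [ht] at h
    rcases (h43 (j d) x).1 h.symm with h1 | ⟨b, hb, b', hb', h1, -, -⟩
    · obtain ⟨e, he, -⟩ := hs1 d x h1
      exact ⟨e, he⟩
    · exact absurd (hB d b hb h1) hd

end QR
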